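import Pool.Agent.N309.PD.Cone

/-!
# The Singer conjecture and connected positive cones

Let `G` be a left-ordered group which is generated by positive elements `s_1, …, s_d`. We bound the
first `L²`-Betti number of `G` by the number of components of the positive cone `{g | 1 < g}` of the
Cayley graph which contain generators, minus one. In particular it vanishes if the positive cone is
connected. For a Poincaré duality group of dimension `n ≤ 4` all `L²`-Betti numbers outside the middle
dimension are determined by the first one, so the Singer conjecture holds for these groups if the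
positive cone is connected (or if `d ≤ 2`).

Outline. A path in the positive cone from `s_a` to `s_b` gives a closed path at `1` and a relation
of the elements `s_j - 1` of the augmentation ideal, by Fox calculus. All its coefficients are
supported on `{g | 1 ≤ g}` and its part at `1` is `e_a - e_b`. The level inequality
`N309.LO.level_le` for ordered `G`-sets bounds the dimension of the space of square-summable
cocycles, which is contained in the kernel of the matrix of these relations, by the dimension of the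
kernel of the part at `1`. The highest degrees are treated by the same argument for the dual
complex, which resolves a one-dimensional module.
-/

set_option autoImplicit false

open scoped Matrix

universe u

namespace Pool.Agent.Results.MP_984acc_gt.ConnectedPositiveCones

/-- The total order of `G` is left-invariant. -/
def LeftInvariant (G : Type u) [Group G] [LinearOrder G] : Prop :=
  ∀ g a b : G, a ≤ b → g * a ≤ g * b

/-- `g` and `h` can be joined by a path in the Cayley graph of `G` with respect to the `s j` (edges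
from `x` to `x s_j`) all whose vertices are in the positive cone `{x | 1 < x}`. -/
def JoinedInPositiveCone {G : Type u} [Group G] [LinearOrder G] {d : ℕ} (s : Fin d → G)
    (g h : G) : Prop :=
  Relation.ReflTransGen (fun x y : G => 1 < x ∧ 1 < y ∧ ∃ j, y = x * s j ∨ x = y * s j) g h

/-- The matrices of a complex of finitely generated free left modules over the complex group algebra
of `G`: the module in degree `i` consists of the row vectors with `r i` entries, and the boundary
operator from degree `i + 1` to degree `i` is the right multiplication by the matrix `D i`. The dual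
complex consists of the column vectors, with the left multiplication by `D i` from degree `i` to
degree `i + 1`. -/
abbrev Matrices (G : Type u) [Group G] (r : ℕ → ℕ) :=
  ∀ i, Matrix (Fin (r (i + 1))) (Fin (r i)) (MonoidAlgebra ℂ G)

/-- The complex is exact in degree `i + 1`. -/
def IsExactAt {G : Type u} [Group G] {r : ℕ → ℕ} (D : Matrices G r) (i : ℕ) : Prop :=
  ∀ x : Fin (r (i + 1)) → MonoidAlgebra ℂ G, x ᵥ* D i = 0 → ∃ y, y ᵥ* D (i + 1) = x

/-- The dual complex is exact in degree `i + 1`. -/
def IsDualExactAt {G : Type u} [Group G] {r : ℕ → ℕ} (D : Matrices G r) (i : ℕ) : Prop :=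
  ∀ x : Fin (r (i + 1)) → MonoidAlgebra ℂ G, D (i + 1) *ᵥ x = 0 → ∃ y, D i *ᵥ y = x

/-- The sum of the coefficients of an element of the group algebra. -/
noncomputable def aug {G : Type u} [Group G] (α : MonoidAlgebra ℂ G) : ℂ :=
  α.coeff.sum fun _ c => c

/-- The homology of the complex in degree `0` is the trivial module `ℂ`, by means of the functional
which maps `x` to the sum of the `aug (x i) * a i`. -/
def HasAugmentation {G : Type u} [Group G] {r : ℕ → ℕ} (D : Matrices G r) : Prop :=
  ∃ a : Fin (r 0) → ℂ, a ≠ 0 ∧ ∀ x : Fin (r 0) → MonoidAlgebra ℂ G,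
    (∃ y, y ᵥ* D 0 = x) ↔ ∑ i, aug (x i) * a i = 0

/-- The cokernel of `D i` in the dual complex has dimension one over `ℂ`. -/
def HasCoaugmentation {G : Type u} [Group G] {r : ℕ → ℕ} (D : Matrices G r) (i : ℕ) : Prop :=
  ∃ φ : (Fin (r (i + 1)) → MonoidAlgebra ℂ G) →ₗ[ℂ] ℂ, φ ≠ 0 ∧
    ∀ x, (∃ y, D i *ᵥ y = x) ↔ φ x = 0

/-- A finite complex of finitely generated free left modules over the complex group algebra of `G`,
of length `n`, which is a resolution of the trivial module `ℂ` and whose dual complex is exact in the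
degrees `1, …, n - 1` and has a one-dimensional cokernel in degree `n`. -/
structure IsDualityComplex {G : Type u} [Group G] (n : ℕ) {r : ℕ → ℕ} (D : Matrices G r) :
    Prop where
  comp : ∀ i, D (i + 1) * D i = 0
  length : ∀ i, n < i → r i = 0
  exact : ∀ i, IsExactAt D i
  augmentation : HasAugmentation D
  coexact : ∀ i, i + 1 < n → IsDualExactAt D i
  coaugmentation : ∀ i, i + 1 = n → HasCoaugmentation D i

/-- The value at `g` of the convolution `α * f`. -/
noncomputable def conv {G : Type u} [Group G] (α : MonoidAlgebra ℂ G) (f : G → ℂ) (g : G) : ℂ :=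
  ∑ k ∈ α.coeff.support, α.coeff k * f (k⁻¹ * g)

/-- The value at `g` of the convolution `α* * f` with the adjoint of `α`. -/
noncomputable def coconv {G : Type u} [Group G] (α : MonoidAlgebra ℂ G) (f : G → ℂ) (g : G) : ℂ :=
  ∑ k ∈ α.coeff.support, (starRingEnd ℂ) (α.coeff k) * f (k * g)

/-- The square-summable functions on `G × {1, …, k}`. -/
noncomputable abbrev L2 (G : Type u) (k : ℕ) := lp (fun _ : G × Fin k => ℂ) 2

/-- `F` is mapped to zero by the coboundary operator, the matrix `A` acting by convolution. -/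
def IsCocycle {G : Type u} [Group G] {k l : ℕ} (A : Matrix (Fin l) (Fin k) (MonoidAlgebra ℂ G))
    (F : L2 G k) : Prop :=
  ∀ i g, ∑ j, conv (A i j) (fun x => F (x, j)) g = 0

/-- `F` is mapped to zero by the boundary operator, the adjoint of the matrix `A`. -/
def IsCycle {G : Type u} [Group G] {k l : ℕ} (A : Matrix (Fin l) (Fin k) (MonoidAlgebra ℂ G))
    (F : L2 G l) : Prop :=
  ∀ j g, ∑ i, coconv (A i j) (fun x => F (x, i)) g = 0

/-- The square-summable harmonic cochains in degree `i`: the square-summable functions on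
`G × Fin (r i)` in the kernels of the coboundary operator (the matrix `D i`, acting by convolution)
and, if `i` is positive, of the boundary operator (the adjoint of the matrix `D (i - 1)`). They
represent the reduced `ℓ²`-cohomology. -/
noncomputable def harmonic {G : Type u} [Group G] {r : ℕ → ℕ} (D : Matrices G r) :
    (i : ℕ) → Set (L2 G (r i))
  | 0 => {F | IsCocycle (D 0) F}
  | (i + 1) => {F | IsCocycle (D (i + 1)) F ∧ IsCycle (D i) F}

open Classical in
/-- The `i`-th `L²`-Betti number: the von Neumann dimension of the space of harmonic cochains, that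
is, the sum over the basis of one minus the squared distance of the basis vector (at the identity of
`G`) to this space. -/
noncomputable def betti {G : Type u} [Group G] {r : ℕ → ℕ} (D : Matrices G r) (i : ℕ) : ℝ :=
  ∑ j : Fin (r i), (1 - Metric.infDist
    (lp.single 2 ((1 : G), j) (1 : ℂ) : L2 G (r i)) (harmonic D i) ^ 2)

section proofs
open Pool.Agent.W649.ZL Pool.Agent.N309.LO Pool.Agent.N309.PD

variable {G : Type u} [Group G]

theorem opM_apply {a b : ℕ} (A : Matrix (Fin a) (Fin b) (MonoidAlgebra ℂ G)) (F : EE G (Fin b))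
    (k : Fin a) (g : G) : opM A F (g, k) = ∑ j, conv (A k j) (fun x => F (x, j)) g := by
  rw [← cmp_apply, cmp_opM]
  unfold pr
  rw [sum_apply_EE]
  refine Finset.sum_congr rfl fun j _ => ?_
  rw [Lam_apply]
  unfold conv
  refine Finset.sum_congr rfl fun x _ => ?_
  rw [cmp_apply]

theorem Lam_sig_apply (α : MonoidAlgebra ℂ G) (f : EE G Unit) (g : G) :
    Lam (sig α) f (g, ()) = coconv α (fun x => f (x, ())) g := by
  rw [Lam_apply]
  unfold coconv
  apply Finset.sum_nbij' (fun k => k⁻¹) (fun k => k⁻¹)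
  · intro k hk
    rw [Finsupp.mem_support_iff] at hk ⊢
    rw [sig_coeff] at hk
    intro h
    exact hk (by rw [h, map_zero])
  · intro k hk
    rw [Finsupp.mem_support_iff] at hk ⊢
    rw [sig_coeff, inv_inv]
    intro h
    exact hk ((map_eq_zero _).1 h)
  · intro k _
    exact inv_inv k
  · intro k _
    exact inv_inv k
  · intro k _
    rw [sig_coeff]

theorem opM_adj_apply {a b : ℕ} (A : Matrix (Fin a) (Fin b) (MonoidAlgebra ℂ G))
    (F : EE G (Fin a)) (j : Fin b) (g : G) :
    opM (adjM A) F (g, j) = ∑ k, coconv (A k j) (fun x => F (x, k)) g := by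
  rw [← cmp_apply, cmp_opM]
  unfold pr
  rw [sum_apply_EE]
  refine Finset.sum_congr rfl fun k _ => ?_
  change Lam (sig (A k j)) (cmp k F) (g, ()) = _
  rw [Lam_sig_apply]
  congr 1
  funext x
  rw [cmp_apply]

theorem ker_iff {a b : ℕ} (A : Matrix (Fin a) (Fin b) (MonoidAlgebra ℂ G)) (F : EE G (Fin b)) :
    (∀ k g, ∑ j, conv (A k j) (fun x => F (x, j)) g = 0) ↔ opM A F = 0 := by
  constructor
  · intro h
    ext ⟨g, k⟩
    rw [opM_apply, h]
    rfl
  · intro h k g
    rw [← opM_apply, h]
    rfl

theorem coker_iff {a b : ℕ} (A : Matrix (Fin a) (Fin b) (MonoidAlgebra ℂ G)) (F : EE G (Fin a)) :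
    (∀ j g, ∑ k, coconv (A k j) (fun x => F (x, k)) g = 0) ↔ opM (adjM A) F = 0 := by
  constructor
  · intro h
    ext ⟨g, j⟩
    rw [opM_adj_apply, h]
    rfl
  · intro h j g
    rw [← opM_adj_apply, h]
    rfl

theorem harmonic_zero {r : ℕ → ℕ} (D : Matrices G r) :
    harmonic D 0 = (LinearMap.ker (opM (D 0) : EE G (Fin (r 0)) →ₗ[ℂ] EE G (Fin (r 1))) :
      Set (EE G (Fin (r 0)))) := by
  ext F
  exact ker_iff (D 0) F

theorem harmonic_succ {r : ℕ → ℕ} (D : Matrices G r) (i : ℕ) :
    harmonic D (i + 1) = (harm (opM (D (i + 1))) (opM (D i)) : Set (EE G (Fin (r (i + 1))))) := by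
  ext F
  have h1 := ker_iff (D (i + 1)) F
  have h2 := coker_iff (D i) F
  have h3 := ContinuousLinearMap.orthogonal_range (opM (D i))
  rw [opM_adj] at h3
  unfold harm
  rw [h3]
  exact and_congr h1 h2

theorem betti_eq {r : ℕ → ℕ} (D : Matrices G r) (i : ℕ)
    (P : Submodule ℂ (EE G (Fin (r i)))) (hP : IsClosed (P : Set (EE G (Fin (r i)))))
    (h : harmonic D i = (P : Set (EE G (Fin (r i))))) : betti D i = vd P := by
  classical
  rw [vd_eq_infDist P hP]
  unfold betti
  rw [h]
  refine Finset.sum_congr rfl fun j _ => ?_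
  have e : (lp.single 2 ((1 : G), j) (1 : ℂ) : lp (fun _ : G × Fin (r i) => ℂ) 2)
      = (dl ((1 : G), j) : EE G (Fin (r i))) := by
    unfold dl
    congr 1
    exact Subsingleton.elim _ _
  rw [← e]

theorem harm_le {J L M : ℕ} (A : Matrix (Fin L) (Fin J) (MonoidAlgebra ℂ G))
    (B : Matrix (Fin M) (Fin L) (MonoidAlgebra ℂ G)) (hBA : B * A = 0)
    (hA : ∀ F, opM A F = 0 → F = 0) (c : ℝ)
    (h : vd (LinearMap.ker (opM B : EE G (Fin L) →ₗ[ℂ] EE G (Fin M))) ≤ (J : ℝ) + c) :
    vd (harm (opM B) (opM A)) ≤ c := by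
  have h0 : ∀ F, opM B (opM A F) = 0 := by
    intro F
    rw [opM_eq_zero]
    intro k
    rw [pr_opM]
    have e : B k ᵥ* A = 0 := by
      funext j
      exact congrFun (congrFun hBA k) j
    rw [e, pr_zero_left]
  rw [vd_harm_eq _ _ (opM_eqv A) h0]
  have h1 : vd (LinearMap.ker (opM A : EE G (Fin J) →ₗ[ℂ] EE G (Fin L))) = 0 := by
    apply vd_ker_of_injective
    rw [injective_iff_map_eq_zero]
    exact hA
  rw [h1, Fintype.card_fin]
  linarith

theorem adjM_mul {J L M : ℕ} (A : Matrix (Fin L) (Fin J) (MonoidAlgebra ℂ G))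
    (B : Matrix (Fin M) (Fin L) (MonoidAlgebra ℂ G)) (hBA : B * A = 0) : adjM A * adjM B = 0 := by
  funext j m
  change ∑ l, sig (A l j) * sig (B m l) = 0
  have h1 : ∀ l, sig (A l j) * sig (B m l) = sig (B m l * A l j) := fun l => (sig_mul _ _).symm
  rw [Finset.sum_congr rfl fun l _ => h1 l, ← sig_sum]
  have h2 : ∑ l, B m l * A l j = 0 := congrFun (congrFun hBA m) j
  rw [h2, sig_zero]

end proofs

/-- **The Singer conjecture and connected positive cones.** Let `G` be generated by the elements
`s_1, …, s_d`, which are positive for a left-invariant total order of `G`. Let `T` be a set of indices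
such that each `s_a` can be joined with some `s_t`, `t ∈ T`, inside the positive cone of the Cayley
graph. Let `D` be the complex of a Poincaré duality group structure of dimension `n ≥ 2` on `G`.

1. The `L²`-Betti numbers in degrees `0` and `n` vanish, and those in degrees `1` and `n - 1` are at
most `|T| - 1` and at most `d - 2`.
2. If `|T| ≤ 1` or `d ≤ 2`, and `n ≤ 4`, then all `L²`-Betti numbers outside degree `n / 2` vanish. -/
theorem result (G : Type u) [Group G] [LinearOrder G] (hG : LeftInvariant G) (d : ℕ)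
    (s : Fin d → G) (hpos : ∀ j, 1 < s j) (hs : Subgroup.closure (Set.range s) = ⊤)
    (T : Finset (Fin d)) (hT : ∀ a, ∃ t ∈ T, JoinedInPositiveCone s (s a) (s t))
    (n : ℕ) (hn : 2 ≤ n) (r : ℕ → ℕ) (D : Matrices G r) (hD : IsDualityComplex n D) :
    (betti D 0 = 0 ∧ betti D n = 0 ∧
      betti D 1 ≤ (T.card : ℝ) - 1 ∧ betti D (n - 1) ≤ (T.card : ℝ) - 1 ∧
      betti D 1 ≤ (d : ℝ) - 2 ∧ betti D (n - 1) ≤ (d : ℝ) - 2) ∧
    ((T.card ≤ 1 ∨ d ≤ 2) → n ≤ 4 → ∀ i, 2 * i ≠ n → betti D i = 0) := by
  classical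
  obtain ⟨a, ha0, ha⟩ := hD.augmentation
  have hA : ∀ x, (∃ y, y ᵥ* D 0 = x) ↔ N309.PD.augF a x = 0 := by
    intro x
    rw [ha, N309.PD.augF_apply]
    simp only [N309.PD.augm_eq]
    rfl
  have hφ : (N309.PD.augF a : (Fin (r 0) → MonoidAlgebra ℂ G) →ₗ[ℂ] ℂ) ≠ 0 :=
    N309.PD.augF_ne a ha0
  have hφ' := N309.PD.aug_of hφ _ hA
  obtain ⟨m, rfl⟩ : ∃ m, n = m + 2 := ⟨n - 2, by omega⟩
  obtain ⟨ψ, hψ0, hψ⟩ := hD.coaugmentation (m + 1) rfl
  have hψ' := N309.PD.dual_aug (D (m + 1)) ψ hψ
  have hψ0' := N309.PD.dualF_ne hψ0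
  have hψ'' := N309.PD.aug_of hψ0' _ hψ'
  have hnf : ¬ Function.Injective (FreeGroup.lift s) :=
    N309.PD.not_free r D hD.comp hD.exact (N309.PD.augF a) hφ hA m
      (hD.length (m + 3) (by omega)) ψ hψ0 hψ s hs
  have hd0 : 0 < d := by
    rcases Nat.eq_zero_or_pos d with h | h
    · subst h
      exact absurd (fun x y _ => Subsingleton.elim x y) hnf
    · exact h
  have hnt : Nontrivial G := ⟨⟨1, s ⟨0, hd0⟩, (hpos _).ne⟩⟩
  have hZ : N309.PD.NZ G := N309.PD.nz_left hG
  -- degree zero
  have k0 : ∀ F, N309.PD.opM (D 0) F = 0 → F = 0 :=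
    N309.PD.ker_zero hZ (D 0) _ hφ' hA
  have k0' : ∀ F, N309.PD.opM (N309.PD.adjM (D (m + 1))) F = 0 → F = 0 :=
    N309.PD.ker_zero hZ _ _ hψ'' hψ'
  have b0 : betti D 0 = 0 := by
    rw [betti_eq D 0 _ (ContinuousLinearMap.isClosed_ker _) (harmonic_zero D)]
    apply W649.ZL.vd_ker_of_injective
    rw [injective_iff_map_eq_zero]
    exact k0
  have bn : betti D (m + 2) = 0 := by
    rw [betti_eq D (m + 2) _ (N309.LO.harm_closed _ _) (harmonic_succ D (m + 1))]
    have h1 : N309.LO.harm (N309.PD.opM (D (m + 2))) (N309.PD.opM (D (m + 1))) = ⊥ := by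
      rw [eq_bot_iff]
      rintro F ⟨_, hF⟩
      rw [ContinuousLinearMap.orthogonal_range, N309.PD.opM_adj] at hF
      rw [Submodule.mem_bot]
      exact k0' F hF
    rw [h1, W649.ZL.vd_bot]
  -- degree one
  have hcard1 : ((Fintype.card (Fin (r 0)) : ℕ) : ℝ) = (r 0 : ℝ) := by rw [Fintype.card_fin]
  have hcard2 : ((Fintype.card (Fin (r (m + 2))) : ℕ) : ℝ) = (r (m + 2) : ℝ) := by
    rw [Fintype.card_fin]
  have hcard3 : ((Fintype.card (Fin d) : ℕ) : ℝ) = (d : ℝ) := by rw [Fintype.card_fin]
  have hT' : ∀ a, ∃ t ∈ T, Relation.ReflTransGen (N309.PD.Adj s) (s a) (s t) := hT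
  have b1 : ∀ c : ℝ, W649.ZL.vd (LinearMap.ker (N309.PD.opM (D 1) :
      W649.ZL.EE G (Fin (r 1)) →ₗ[ℂ] W649.ZL.EE G (Fin (r 2)))) ≤ (r 0 : ℝ) + c →
      betti D 1 ≤ c := by
    intro c hc
    rw [betti_eq D 1 _ (N309.LO.harm_closed _ _) (harmonic_succ D 0)]
    exact harm_le (D 0) (D 1) (hD.comp 0) k0 c hc
  have b1' : ∀ c : ℝ, W649.ZL.vd (LinearMap.ker (N309.PD.opM (N309.PD.adjM (D m)) :
      W649.ZL.EE G (Fin (r (m + 1))) →ₗ[ℂ] W649.ZL.EE G (Fin (r m)))) ≤ (r (m + 2) : ℝ) + c →
      betti D (m + 1) ≤ c := by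
    intro c hc
    rw [betti_eq D (m + 1) _ (N309.LO.harm_closed _ _) (harmonic_succ D m),
      N309.PD.harm_dual, N309.PD.opM_adj, N309.PD.opM_adj]
    exact harm_le (N309.PD.adjM (D (m + 1))) (N309.PD.adjM (D m))
      (adjM_mul _ _ (hD.comp m)) k0' c hc
  have e1 : betti D 1 ≤ (T.card : ℝ) - 1 := by
    apply b1
    have h := N309.PD.ker_one_cone hG (D 0) (D 1) _ hφ' hA (hD.exact 0) s hpos hs T hT'
    rw [hcard1] at h
    linarith
  have e2 : betti D 1 ≤ (d : ℝ) - 2 := by
    apply b1
    have h := N309.PD.ker_one hZ (D 0) (D 1) _ hφ' hA (hD.exact 0) s hs hnf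
    rw [hcard1, hcard3] at h
    linarith
  have hex := N309.PD.dual_exact (D (m + 1)) (D m) (hD.coexact m (by omega))
  have e3 : betti D (m + 1) ≤ (T.card : ℝ) - 1 := by
    apply b1'
    have h := N309.PD.ker_one_cone hG (N309.PD.adjM (D (m + 1))) (N309.PD.adjM (D m)) _ hψ'' hψ'
      hex s hpos hs T hT'
    rw [hcard2] at h
    linarith
  have e4 : betti D (m + 1) ≤ (d : ℝ) - 2 := by
    apply b1'
    have h := N309.PD.ker_one hZ (N309.PD.adjM (D (m + 1))) (N309.PD.adjM (D m)) _ hψ'' hψ'
      hex s hs hnf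
    rw [hcard2, hcard3] at h
    linarith
  have nn : ∀ i, 0 ≤ betti D i := by
    intro i
    cases i with
    | zero => rw [b0]
    | succ i =>
      rw [betti_eq D (i + 1) _ (N309.LO.harm_closed _ _) (harmonic_succ D i)]
      exact W649.ZL.vd_nonneg _
  refine ⟨⟨b0, bn, e1, e3, e2, e4⟩, ?_⟩
  intro hTd hm i hi
  have f1 : betti D 1 = 0 := by
    apply le_antisymm _ (nn 1)
    rcases hTd with h | h
    · have : (T.card : ℝ) ≤ 1 := by exact_mod_cast h
      linarith
    · have : (d : ℝ) ≤ 2 := by exact_mod_cast h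
      linarith
  have f2 : betti D (m + 1) = 0 := by
    apply le_antisymm _ (nn (m + 1))
    rcases hTd with h | h
    · have : (T.card : ℝ) ≤ 1 := by exact_mod_cast h
      linarith
    · have : (d : ℝ) ≤ 2 := by exact_mod_cast h
      linarith
  by_cases hbig : m + 2 < i
  · unfold betti
    apply Finset.sum_eq_zero
    intro j _
    have h1 := j.2
    have h2 := hD.length i hbig
    omega
  · have h3 : i = 0 ∨ i = 1 ∨ i = m + 1 ∨ i = m + 2 := by omega
    rcases h3 with rfl | rfl | rfl | rfl
    · exact b0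
    · exact f1
    · exact f2
    · exact bn

end Pool.Agent.Results.MP_984acc_gt.ConnectedPositiveCones
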