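import Pool.Agent.N496.CV.All
import Pool.Agent.N496.CV.L2Pf
import Pool.Agent.N496.CV.DualPf

/-!
# The Singer conjecture for the codimension one Poincare duality subgroups in subdivided flag homology spheres

Let the flag complex of the graph `H` be a homology manifold with the homology of the sphere of dimension `n - 1`, both
over the reals and over the field with two elements (for example a flag triangulation of the sphere of dimension
`n - 1`), `n = 2 d` or `n = 2 d + 1`, `1 ≤ d`. Let `B` be a set of vertices such that the full subcomplex spanned by `B`
is properly coloured by `d + 1` colours (for example `B` empty). We show that there is an iterated edge subdivision `S`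
of `H` (`Sub H S`), in which the full subcomplex spanned by `B` is not changed and which is a homology sphere again,
such that for every Poincare duality group `K` of type FL (`PD K q`), orientable or not, of arbitrary dimension `q`,
which is a subgroup of finite or infinite index of the kernel `Γ` of `W S → (ℤ/2)^m`, the `L²`-Betti number `b_k(K)`
is zero for all `k > d` and all `k < q - d`.

So for `q = 2 d` and for `q = 2 d + 1` the group `K` satisfies the Singer conjecture. For `n = 2 d + 1` these are
the subgroups of finite index of `Γ` and all the Poincare duality subgroups of codimension one (of infinite index), for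
example all the `π_1`-injective closed aspherical `2 d`-manifolds in the closed aspherical manifold `M` with the
fundamental group `Γ` and in its covers.
-/

set_option autoImplicit false

namespace Pool.Agent.Results.MP_984acc_gt.DualitySubgroups

open Pool.Agent.W907.SG Pool.Agent.W461.SGN Pool.Agent.N496.LT Pool.Agent.N496.CV
open Pool.Agent.TH652.Above (HSph)
open Pool.Agent.N504.RS.Two (HSph2)

/-- Let the flag complex of `H` be a homology manifold with the homology of the `(n-1)`-sphere over the reals and over
the field with two elements, `n = 2 d` or `n = 2 d + 1`, and let the full subcomplex spanned by the set `B` of vertices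
be properly coloured by `d + 1` colours. Then there is an iterated edge subdivision `S` of `H`, again a homology sphere
in both senses, which induces on `B` the same graph as `H`, such that the kernel `Γ` of `W S → (ℤ/2)^m` is torsion free
of finite index in the right-angled Coxeter group `W S` and for every subgroup `K` of `Γ`, of arbitrary index, which is a
Poincare duality group of some dimension `q` (of type FL) the `L²`-Betti numbers `b_k(K)` with `k > d` or `k < q - d`
vanish; in particular, if `q` is `2 d` or `2 d + 1`, all of them with `k ≠ q / 2` vanish. -/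
theorem result : ∀ (d n N : ℕ) (H : SimpleGraph (Fin N)), 1 ≤ d → (n = 2 * d ∨ n = 2 * d + 1) →
    HSph n H → HSph2 n H →
    ∀ (B : Set (Fin N)) (c : Fin N → Fin (d + 1)), (∀ u ∈ B, ∀ v ∈ B, H.Adj u v → c u ≠ c v) →
    ∃ (m : ℕ) (h : N ≤ m) (S : SimpleGraph (Fin m)), Sub H S ∧ HSph n S ∧ HSph2 n S ∧
      (∀ u ∈ B, ∀ v ∈ B, S.Adj (Fin.castLE h u) (Fin.castLE h v) ↔ H.Adj u v) ∧
      (th S).ker.FiniteIndex ∧ (∀ g ∈ (th S).ker, ∀ j : ℕ, 0 < j → g ^ j = 1 → g = 1) ∧
      ∀ K : Subgroup (W S), K ≤ (th S).ker → ∀ q : ℕ, Nonempty (PD K q) →
        (∀ k : ℕ, d < k ∨ k + d < q → HasL2Betti K k 0) ∧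
        (q = 2 * d ∨ q = 2 * d + 1 → ∀ k : ℕ, 2 * k ≠ q → HasL2Betti K k 0) := by
  intro d n N H hd hn hS hS2 B c hc
  obtain ⟨m, h, S, h1, h2, h3, h4, h5⟩ :=
    Pool.Agent.N496.CV.rel_all Pool.Agent.N496.CV.main H hd hn hS hS2 B c hc
  refine ⟨m, h, S, h1, h2, h3, h4, inferInstance, fun g hg j hj hgj => Pool.Agent.N496.CV.tf' (Fin m) S g hg j hj hgj,
    fun K hK q hq => ?_⟩
  obtain ⟨P⟩ := hq
  have h6 : ∀ k : ℕ, d < k ∨ k + d < q → HasL2Betti K k 0 := by
    intro k hk
    have h7 : VN831.l2Betti K k = 0 := by
      rcases hk with hk | hk
      · exact h5 K hK k (by omega)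
      · exact pd_zero P k (q - k) (by omega) (h5 K hK (q - k) (by omega))
    have h8 := hasL2Betti K k
    rw [h7] at h8
    exact h8
  refine ⟨h6, fun hq k hk => h6 k (by omega)⟩

end Pool.Agent.Results.MP_984acc_gt.DualitySubgroups
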