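import Pool.Agent.N504.RS.Hom3

/-!
# The Singer conjecture for the Poincare duality groups of subdivided homology spheres, relative to a coloured full
subcomplex

Let the flag complex of the graph `H` be a homology manifold with the homology of the sphere of dimension `n - 1`, both
over the reals and over the field with two elements, `n = 2 d` or `n = 2 d + 1`; for example an integral homology
sphere which is an integral homology manifold, not necessarily simply connected and not necessarily embedded in a
sphere. Let `B` be a set of vertices such that the full subcomplex spanned by `B` is properly coloured by `d + 1`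
colours. We show that there is an iterated edge subdivision `S` of `H`, in which the full subcomplex spanned by `B` is
not changed and which is a homology sphere again, such that the right-angled Coxeter group `W S` satisfies the
statement of Singer's conjecture, and moreover the `ℓ²`-homology of all its special subgroups vanishes above the
middle degree.

The torsion-free subgroups of finite index of `W S` are Poincare duality groups of dimension `n` over the real numbers
and over the field with two elements (over the integers if `H` is an integral homology sphere and integral homology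
manifold). The right-angled Coxeter group of the full subcomplex spanned by `B` is a retract of `W S`.
-/

set_option autoImplicit false

namespace Pool.Agent.Results.MP_984acc_gt.HomologySpheresRelative

open Module Pool.Agent.W907.SG Pool.Agent.Y132.SI Pool.Agent.N496.LT
open Pool.Agent.TH652.Above (HSph chi_sign)
open Pool.Agent.N504.RS.Two (HSph2)

/-- Let the flag complex of `H` be a homology manifold with the homology of the `(n-1)`-sphere over the reals and over
the field with two elements, `n = 2 d` or `n = 2 d + 1`, and let the full subcomplex spanned by the set `B` of
vertices be properly coloured by `d + 1` colours. Then there is an iterated edge subdivision `S` of `H`, again a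
homology sphere in both senses, which induces on `B` the same graph as `H` such that (1) the reduced `ℓ²`-homology of
the Davis complex of `W S` vanishes in all degrees `i ≠ n / 2`, (2) for all sets `C` of vertices of `S` the reduced
`ℓ²`-homology of the Davis complex of the right-angled Coxeter group of the full subcomplex spanned by `C` vanishes in
all degrees `i > d`, (3) if `n = 2 d` then `(-1)^d χ(W S) ≥ 0`, (4) for each `ε > 0` there is a finite set `E` of
nontrivial elements of `W S` such that for every subgroup `K` of finite index which contains no conjugate of an
element of `E`, and for all `i`, the `i`-th real Betti number of `K` differs by at most `ε [W S : K]` from `0`, if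
`2 i ≠ n`, or from `(-1)^i χ(W S) [W S : K]`, if `2 i = n`. -/
theorem result : ∀ (d n N : ℕ) (H : SimpleGraph (Fin N)), 1 ≤ d → (n = 2 * d ∨ n = 2 * d + 1) →
    HSph n H → HSph2 n H →
    ∀ (B : Set (Fin N)) (c : Fin N → Fin (d + 1)), (∀ u ∈ B, ∀ v ∈ B, H.Adj u v → c u ≠ c v) →
    ∃ (m : ℕ) (h : N ≤ m) (S : SimpleGraph (Fin m)), Sub H S ∧ HSph n S ∧ HSph2 n S ∧
      (∀ u ∈ B, ∀ v ∈ B, S.Adj (Fin.castLE h u) (Fin.castLE h v) ↔ H.Adj u v) ∧
      (∀ i : ℕ, 2 * i ≠ n → L2Van S i) ∧
      (∀ (C : Finset (Fin m)) (i : ℕ), d < i → L2Van (S.induce (C : Set (Fin m))) i) ∧
      (n = 2 * d → 0 ≤ (-1 : ℚ) ^ d * chiW S) ∧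
      ∀ ε : ℝ, 0 < ε → ∃ E : Finset (W S), (1 : W S) ∉ E ∧
        ∀ K : Subgroup (W S), K.FiniteIndex → (∀ g ∈ E, ∀ x : W S, x * g * x⁻¹ ∉ K) →
          ∀ i : ℕ, |(finrank ℝ (HInv S K i) : ℝ) -
            (if 2 * i = n then (-1) ^ i * (chiW S : ℝ) else 0) * K.index| ≤ ε * K.index := by
  intro d n N H hd hn hS hS2 B c hc
  obtain ⟨m, h, S, h1, h2, h3, h4, h5, h6⟩ := Pool.Agent.N504.RS.rel4 H hd hn hS hS2 B c hc
  refine ⟨m, h, S, h1, h2, h3, h4, h5, fun C i hi => h6 C i hi _ _, ?_, fun ε hε => growth_free S n h5 ε hε⟩
  rintro rfl
  exact chi_sign S fun i hi => h5 i (by omega)

end Pool.Agent.Results.MP_984acc_gt.HomologySpheresRelative
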